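import Pool.Agent.H.MP_95c9ea_lc.A

set_option autoImplicit false

open Cardinal

namespace Pool.Agent.Results.MP_c1dc0e_lc.No

/-- the cube in cube relation for the cardinal l, the order type t and two colours -/
def Cic (l : Cardinal.{0}) (t : Ordinal.{0}) : Prop :=
  ∀ c : l.ord.ToType → l.ord.ToType → l.ord.ToType → Bool, ∃ H I J : Set l.ord.ToType,
    Nonempty (H ≃o t.ToType) ∧ Nonempty (I ≃o t.ToType) ∧ Nonempty (J ≃o t.ToType) ∧
      ∃ i, ∀ a ∈ H, ∀ b ∈ I, ∀ d ∈ J, c a b d = i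

theorem result (κ : Cardinal.{0}) (hκ : ℵ₀ ≤ κ) : ¬ Cic (Order.succ κ) κ.ord := by
  classical
  intro h
  obtain ⟨c, hc⟩ := Pool.Agent.H.MP_95c9ea_lc.cube hκ
  obtain ⟨H, I, J, ⟨a⟩, ⟨b⟩, ⟨d⟩, i, e⟩ := h fun a b d => decide (c a b d)
  exact hc H I J ((mk_congr a.toEquiv).trans (by simp)).ge ((mk_congr b.toEquiv).trans (by simp)).ge
    ((mk_congr d.toEquiv).trans (by simp)).ge (i = true) fun x u y v z w => by simp [← e x u y v z w]

end Pool.Agent.Results.MP_c1dc0e_lc.No
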